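import Pool.Agent.SCT.StmtsP

/-!
Squad SCT, row NSX: a nonsingular hypersurface over an algebraically closed field is nonsingular over
every extension.
-/

set_option autoImplicit false

namespace Pool.Agent.SCT.H49

open MvPolynomial

theorem aeval_mul_hom {K B σ : Type} [Field K] [Field B] [Algebra K B] {g : MvPolynomial σ K}
    {d : ℕ} (hg : g.IsHomogeneous d) (μ : B) (a : σ → B) :
    aeval (fun i => μ * a i) g = μ ^ d * aeval a g := by
  classical
  rw [aeval_def, aeval_def, eval₂_eq, eval₂_eq, Finset.mul_sum]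
  refine Finset.sum_congr rfl fun m hm => ?_
  have h1 : ∑ i ∈ m.support, m i = d := (hg.degree_eq_sum_deg_support hm).symm
  have h2 : ∏ i ∈ m.support, (μ * a i) ^ m i = μ ^ d * ∏ i ∈ m.support, a i ^ m i := by
    rw [← h1, ← Finset.prod_pow_eq_pow_sum, ← Finset.prod_mul_distrib]
    exact Finset.prod_congr rfl fun i _ => mul_pow _ _ _
  rw [h2]
  ring

/-- **Row NSX.** -/
theorem nsx : NsxStmt := by
  intro E _ _ n d f hf hns Ω _ _ x hx hfx
  by_contra hcon
  push Not at hcon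
  obtain ⟨j, hj⟩ := Function.ne_iff.1 hx
  have hj' : x j ≠ 0 := hj
  obtain ⟨y, hy⟩ : ∃ y : Fin (n + 2) → Ω, y = fun i => (x j)⁻¹ * x i := ⟨_, rfl⟩
  have h1 : aeval y f = 0 := by
    rw [hy, aeval_mul_hom hf, hfx, mul_zero]
  have h2 : ∀ i, aeval y (pderiv i f) = 0 := by
    intro i
    rw [hy, aeval_mul_hom hf.pderiv, hcon i, mul_zero]
  have h3 : aeval y (X j - 1 : MvPolynomial (Fin (n + 2)) E) = 0 := by
    rw [map_sub, aeval_X, map_one, hy]
    simp [hj']
  have hprime : (RingHom.ker (aeval y : MvPolynomial (Fin (n + 2)) E →ₐ[E] Ω)).IsPrime :=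
    RingHom.ker_isPrime _
  obtain ⟨M, hM, hle⟩ := Ideal.exists_le_maximal _ hprime.ne_top
  obtain ⟨e, he⟩ := isMaximal_iff_eq_vanishingIdeal_singleton.1 hM
  have h4 : ∀ p : MvPolynomial (Fin (n + 2)) E, aeval y p = 0 → eval e p = 0 := by
    intro p hp
    have h5 : p ∈ M := hle ((RingHom.mem_ker).2 hp)
    rw [he, mem_vanishingIdeal_singleton_iff] at h5
    rwa [aeval_eq_eval] at h5
  have h6 : e j = 1 := by
    have h7 := h4 _ h3
    rw [map_sub, eval_X, map_one, sub_eq_zero] at h7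
    exact h7
  have h8 : e ≠ 0 := by
    rintro rfl
    exact zero_ne_one h6
  obtain ⟨i, hi⟩ := hns e h8 (h4 _ h1)
  exact hi (h4 _ (h2 i))

end Pool.Agent.SCT.H49
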